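import Mathlib

set_option autoImplicit false

namespace Pool.Agent.Results.MP_816335_an.No

open Set

universe u

/-- topologically transitive -/
def Transitive {X : Type u} [TopologicalSpace X] (T : X → X) : Prop :=
  ∀ U V : Set X, IsOpen U → IsOpen V → U.Nonempty → V.Nonempty →
    ∃ n ≥ 1, (U ∩ T^[n] ⁻¹' V).Nonempty

/-- totally transitive -/
def TotallyTransitive {X : Type u} [TopologicalSpace X] (T : X → X) : Prop :=
  ∀ m ≥ 1, Transitive T^[m]

/-- bounded gaps: every interval `{n, ..., n + L}` of positive integers meets `S` -/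
def Syndetic (S : Set ℕ) : Prop := ∃ L, ∀ n ≥ 1, ∃ s ∈ S, n ≤ s ∧ s ≤ n + L

/-- weak interpolation set of order `k` for totally transitive systems -/
def WeakInterp (k : ℕ) (S : Set ℕ) : Prop :=
  ∀ f : S → Fin k, ∃ (X : Type u) (_ : MetricSpace X) (_ : CompactSpace X) (T : X → X),
    Continuous T ∧ TotallyTransitive T ∧ ∃ x : X, DenseRange (fun n : ℕ => T^[n] x) ∧
      ∃ F : X → ℂ, Continuous F ∧ ∀ n : S, F (T^[n] x) = ((f n : ℕ) : ℂ)

theorem residues {X : Type u} [MetricSpace X] [CompactSpace X] {T : X → X} (hT : Continuous T)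
    (h : TotallyTransitive T) {x : X} (hx : DenseRange fun n : ℕ => T^[n] x) {m : ℕ} (hm : 0 < m)
    (r : ℕ) : Dense {y | ∃ n, n % m = r % m ∧ y = T^[n] x} := by
  let A : ℕ → Set X := fun r => closure {y | ∃ n, n % m = r % m ∧ y = T^[n] x}
  have hA : ∀ r j, MapsTo T^[j] (A r) (A (r + j)) := by
    intro r j
    refine MapsTo.closure ?_ (hT.iterate j)
    rintro _ ⟨n, hn, rfl⟩
    exact ⟨j + n, by rw [add_comm j, Nat.add_mod, hn, ← Nat.add_mod],
      (Function.iterate_add_apply _ _ _ _).symm⟩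
  have : Nonempty X := ⟨x⟩
  obtain ⟨ρ, hρ⟩ := nonempty_interior_of_iUnion_of_closed (f := fun ρ : Fin m => A ρ)
    (fun _ => isClosed_closure) (by
      refine eq_univ_of_univ_subset ?_
      rw [← hx.closure_range]
      refine (isClosed_iUnion_of_finite fun _ => isClosed_closure).closure_subset_iff.2 ?_
      rintro _ ⟨n, rfl⟩
      exact mem_iUnion.2 ⟨⟨n % m, Nat.mod_lt _ hm⟩, subset_closure ⟨n, (Nat.mod_mod _ _).symm, rfl⟩⟩)
  have h1 : ∀ j, A (ρ + j) = univ := by
    intro j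
    induction j with
    | zero =>
      refine dense_iff_closure_eq.1 (dense_closure.1 (dense_iff_inter_open.2 fun W hW hne => ?_))
      obtain ⟨n, -, z, h1, h2⟩ := h m hm _ W isOpen_interior hW hρ hne
      rw [← Function.iterate_mul] at h2
      refine ⟨_, h2, ?_⟩
      have := hA _ (m * n) (interior_subset h1)
      simpa only [A, Nat.add_mul_mod_self_left, add_zero] using this
    | succ j ih =>
      refine dense_iff_closure_eq.1 (dense_closure.1 (dense_iff_inter_open.2 fun W hW hne => ?_))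
      obtain ⟨n, hn, z, -, h2⟩ := h 1 le_rfl univ W isOpen_univ hW univ_nonempty hne
      obtain ⟨n, rfl⟩ : ∃ k, n = k + 1 := ⟨n - 1, by omega⟩
      rw [Function.iterate_one, mem_preimage, Function.iterate_succ_apply'] at h2
      exact ⟨_, h2, hA (ρ + j) 1 (by rw [ih]; trivial)⟩
  have h2 := h1 (r + (m - 1) * ρ)
  obtain ⟨k, rfl⟩ : ∃ k, m = k + 1 := ⟨m - 1, by omega⟩
  have e : (ρ + (r + (k + 1 - 1) * ρ)) % (k + 1) = r % (k + 1) := by
    rw [show ρ + (r + (k + 1 - 1) * ρ) = r + (k + 1) * ρ by simp only [Nat.add_sub_cancel]; ring,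
      Nat.add_mul_mod_self_left]
  simp only [A, e] at h2
  exact dense_iff_closure_eq.2 h2

theorem result : ¬ ∃ S : Set ℕ, (∀ n ∈ S, 1 ≤ n) ∧ Syndetic S ∧ WeakInterp.{u} 2 S := by
  classical
  rintro ⟨S, -, ⟨L, hL⟩, hS⟩
  let B := L + 2
  have hB : 0 < B := by omega
  let e := Fintype.equivFin (Fin B → Bool)
  have hK : 0 < Fintype.card (Fin B → Bool) := Fintype.card_pos
  obtain ⟨X, _, _, T, hT, htt, x, hx, F, hF, h⟩ := hS fun n =>
    if e.symm ⟨n / B % _, Nat.mod_lt _ hK⟩ ⟨n % B, Nat.mod_lt _ hB⟩ then 0 else 1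
  let w : Fin B → Bool := fun i => decide (‖F (T^[i] x) - 1‖ < 1 / 2)
  have hU : IsOpen {y | ∀ i : Fin B, ‖F (T^[i] y) - F (T^[i] x)‖ < 1 / 2} := by
    rw [setOf_forall]
    exact isOpen_iInter_of_finite fun i =>
      isOpen_lt ((hF.comp (hT.iterate i)).sub continuous_const).norm continuous_const
  obtain ⟨_, h1, p, hp, rfl⟩ := (residues hT htt hx (Nat.mul_pos hB hK) (B * e w)).inter_open_nonempty
    _ hU ⟨x, fun i => by simp⟩
  have h2 : p % B = 0 := by
    rw [← Nat.mod_mul_right_mod p B (Fintype.card (Fin B → Bool)), hp, Nat.mod_mul_right_mod,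
      Nat.mul_mod_right]
  have h3 : p / B % Fintype.card (Fin B → Bool) = e w := by
    rw [← Nat.mod_mul_right_div_self, hp, Nat.mod_mul_right_div_self,
      Nat.mul_div_cancel_left _ hB, Nat.mod_eq_of_lt (e w).2]
  obtain ⟨s, hs, h4, h5⟩ := hL (p + 1) (by omega)
  obtain ⟨i, rfl⟩ : ∃ i, s = p + i := ⟨s - p, by omega⟩
  have hi : i < B := by omega
  obtain ⟨q, rfl⟩ := Nat.dvd_of_mod_eq_zero h2
  have h6 : (B * q + i) / B = B * q / B := by
    rw [Nat.mul_add_div hB, Nat.div_eq_of_lt hi, add_zero, Nat.mul_div_cancel_left _ hB]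
  have h7 : (B * q + i) % B = i := by rw [Nat.mul_add_mod, Nat.mod_eq_of_lt hi]
  have h8 := h ⟨_, hs⟩
  have h9 := h1 ⟨i, hi⟩
  simp only [h6, h7, h3, Fin.eta, Equiv.symm_apply_apply] at h8
  rw [← Function.iterate_add_apply, add_comm i, h8] at h9
  by_cases h10 : ‖F (T^[i] x) - 1‖ < 1 / 2
  · have : w ⟨i, hi⟩ = true := decide_eq_true h10
    simp only [this, if_true, Fin.val_zero, Nat.cast_zero, zero_sub, norm_neg] at h9
    have := norm_sub_le (F (T^[i] x)) (F (T^[i] x) - 1)
    rw [sub_sub_cancel, norm_one] at this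
    linarith
  · have : w ⟨i, hi⟩ = false := decide_eq_false h10
    simp only [this, Bool.false_eq_true, if_false, Fin.val_one, Nat.cast_one] at h9
    exact h10 (by rwa [norm_sub_rev])

end Pool.Agent.Results.MP_816335_an.No
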